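import Mathlib

set_option autoImplicit false

namespace Pool.Agent.H.MP_d6d24d_co

open Set

abbrev E (d : ℕ) : Type := Fin d → ℝ

variable {d : ℕ}

/-- full-dimensional convex polytope -/
def IsPoly (T : Set (E d)) : Prop :=
  (∃ V : Set (E d), V.Finite ∧ T = convexHull ℝ V) ∧ (interior T).Nonempty

def IsTiling (𝒯 : Set (Set (E d))) : Prop :=
  (∀ T ∈ 𝒯, IsPoly T) ∧ ⋃₀ 𝒯 = univ ∧
    ∀ T ∈ 𝒯, ∀ T' ∈ 𝒯, T ≠ T' → Disjoint (interior T) (interior T')

def LocFin (𝒯 : Set (Set (E d))) : Prop :=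
  ∀ B : Set (E d), Bornology.IsBounded B → {T | T ∈ 𝒯 ∧ (T ∩ B).Nonempty}.Finite

def IsFace (T F : Set (E d)) : Prop := IsExtreme ℝ T F ∧ Convex ℝ F

def sigma (𝒯 : Set (Set (E d))) (x : E d) : Set (Set (E d) × Set (E d)) :=
  {p | p.1 ∈ 𝒯 ∧ x ∈ p.1 ∧ IsFace p.1 p.2 ∧ x ∈ intrinsicInterior ℝ p.2}

def cell (𝒯 : Set (Set (E d))) (x : E d) : Set (E d) := closure {y | sigma 𝒯 y = sigma 𝒯 x}

def poset (𝒯 : Set (Set (E d))) : Set (Set (E d)) :=
  {C | (∃ x, C = cell 𝒯 x) ∨ C = ∅ ∨ C = univ}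

def Dual (𝒯 𝒮 : Set (Set (E d))) : Prop :=
  ∃ φ : poset 𝒯 → poset 𝒮, Function.Bijective φ ∧
    ∀ A B : poset 𝒯, A.1 ⊆ B.1 ↔ (φ B).1 ⊆ (φ A).1

theorem mem_ri {S : Set (E d)} {z : E d} : z ∈ intrinsicInterior ℝ S ↔
    z ∈ affineSpan ℝ S ∧ ∃ ε > 0, ∀ y ∈ affineSpan ℝ S, dist y z < ε → y ∈ S := by
  rw [mem_intrinsicInterior]
  constructor
  · rintro ⟨y, hy, rfl⟩
    rw [mem_interior_iff_mem_nhds, Metric.mem_nhds_iff] at hy
    obtain ⟨ε, hε, h⟩ := hy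
    exact ⟨y.2, ε, hε, fun w hw hd => h (show (⟨w, hw⟩ : affineSpan ℝ S) ∈ Metric.ball y ε from hd)⟩
  · rintro ⟨hz, ε, hε, h⟩
    refine ⟨⟨z, hz⟩, ?_, rfl⟩
    rw [mem_interior_iff_mem_nhds, Metric.mem_nhds_iff]
    exact ⟨ε, hε, fun w hw => h w.1 w.2 hw⟩

theorem ri_ext {S : Set (E d)} {z y : E d} (hz : z ∈ intrinsicInterior ℝ S)
    (hy : y ∈ affineSpan ℝ S) : ∃ y' ∈ S, z ∈ openSegment ℝ y y' := by
  obtain ⟨hz1, ε, hε, h⟩ := mem_ri.1 hz
  set t : ℝ := ε / (‖z - y‖ + 1) with ht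
  have hn : 0 < ‖z - y‖ + 1 := by positivity
  have t0 : 0 < t := by positivity
  refine ⟨t • (z - y) + z, h _ ((affineSpan ℝ S).smul_vsub_vadd_mem t hz1 hy hz1) ?_,
    t / (1 + t), 1 / (1 + t), by positivity, by positivity, by field_simp; ring, ?_⟩
  · rw [dist_eq_norm, add_sub_cancel_right, norm_smul, Real.norm_eq_abs, abs_of_pos t0, ht,
      div_mul_eq_mul_div, div_lt_iff₀ hn]
    nlinarith
  · ext i
    simp only [Pi.add_apply, Pi.smul_apply, Pi.sub_apply, smul_eq_mul]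
    field_simp
    ring

theorem ri_of {S : Set (E d)} (hS : Convex ℝ S) {z : E d} (hz : z ∈ S)
    (h : ∀ y ∈ S, ∃ y' ∈ S, z ∈ openSegment ℝ y y') : z ∈ intrinsicInterior ℝ S := by
  obtain ⟨y, hy⟩ := Set.Nonempty.intrinsicInterior hS ⟨z, hz⟩
  obtain ⟨y', hy', a, b, ha, hb, hab, e⟩ := h y (intrinsicInterior_subset hy)
  obtain ⟨hy1, ε, hε, hh⟩ := mem_ri.1 hy
  have hz1 : z ∈ affineSpan ℝ S := subset_affineSpan ℝ S hz
  refine mem_ri.2 ⟨hz1, a * ε, by positivity, fun w hw hd => ?_⟩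
  have hu : a⁻¹ • (w - z) + y ∈ S := by
    refine hh _ ((affineSpan ℝ S).smul_vsub_vadd_mem a⁻¹ hw hz1 hy1) ?_
    rw [dist_eq_norm] at hd
    rw [dist_eq_norm, add_sub_cancel_right, norm_smul, Real.norm_eq_abs,
      abs_of_pos (inv_pos.2 ha), inv_mul_lt_iff₀ ha]
    exact hd
  have := hS hu hy' ha.le hb.le hab
  have e2 : a • (a⁻¹ • (w - z) + y) + b • y' = w := by
    rw [smul_add, smul_smul, mul_inv_cancel₀ ha.ne', one_smul, add_assoc, e]; abel
  rwa [e2] at this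

theorem face_sub {T F S : Set (E d)} (hF : IsFace T F) (hS : S ⊆ T) {z : E d} (hz : z ∈ F)
    (hzS : z ∈ intrinsicInterior ℝ S) : S ⊆ F := by
  intro y hy
  obtain ⟨y', hy', h⟩ := ri_ext hzS (subset_affineSpan ℝ S hy)
  exact hF.1.left_mem_of_mem_openSegment (hS hy) (hS hy') hz h

theorem face_closed {T F : Set (E d)} (hT : IsClosed T) (hF : IsFace T F) {z : E d}
    (hz : z ∈ intrinsicInterior ℝ F) : IsClosed F := by
  refine isClosed_of_closure_subset fun w hw => ?_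
  have h1 : w ∈ T := hT.closure_subset_iff.2 hF.1.subset hw
  have h2 : w ∈ affineSpan ℝ F :=
    (AffineSubspace.closed_of_finiteDimensional _).closure_subset_iff.2 (subset_affineSpan ℝ F) hw
  obtain ⟨y', hy', h⟩ := ri_ext hz h2
  exact hF.1.left_mem_of_mem_openSegment h1 (hF.1.subset hy') (intrinsicInterior_subset hz) h

theorem face_exists {T : Set (E d)} (hT : Convex ℝ T) {x : E d} (hx : x ∈ T) :
    ∃ F, IsFace T F ∧ x ∈ intrinsicInterior ℝ F := by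
  let F : Set (E d) := {y | y ∈ T ∧ ∃ y' ∈ T, x ∈ openSegment ℝ y y'}
  have hxF : x ∈ F := ⟨hx, x, hx, by simp⟩
  have hc : Convex ℝ F := by
    rintro y ⟨hy, y', hy', a, b, ha, hb, hab, e⟩ w ⟨hw, w', hw', a', b', ha', hb', hab', e'⟩
      s t hs ht hst
    refine ⟨hT hy hw hs ht hst, ?_⟩
    have hD : 0 < s * a' + t * a := by
      rcases hs.eq_or_lt with h | h
      · have : t = 1 := by linarith
        rw [← h, this]; linarith
      · have := mul_pos h ha'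
        have := mul_nonneg ht ha.le
        linarith
    have hN : 0 < s * a' * b + t * a * b' := by
      rcases hs.eq_or_lt with h | h
      · have : t = 1 := by linarith
        rw [← h, this]; have := mul_pos ha hb'; linarith
      · have := mul_pos (mul_pos h ha') hb
        have := mul_nonneg (mul_nonneg ht ha.le) hb'.le
        linarith
    have p1 : 0 ≤ s * a' * b := by positivity
    have p2 : 0 ≤ t * a * b' := by positivity
    obtain ⟨D, hD'⟩ : ∃ D, D = s * a' + t * a := ⟨_, rfl⟩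
    obtain ⟨M, hM'⟩ : ∃ M, M = s * a' * b + t * a * b' := ⟨_, rfl⟩
    rw [← hD'] at hD
    rw [← hM'] at hN
    refine ⟨(s * a' * b / M) • y' + (t * a * b' / M) • w',
      hT hy' hw' (by positivity) (by positivity)
        (by rw [← add_div, ← hM', div_self hN.ne']),
      a * a' / D, M / D, by positivity, by positivity, ?_, ?_⟩
    · rw [← add_div, div_eq_one_iff_eq hD.ne', hM', hD']
      linear_combination (s * a') * hab + (t * a) * hab' - (a * a') * hst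
    · ext i
      have e1 := congrFun e i
      have e2 := congrFun e' i
      simp only [Pi.add_apply, Pi.smul_apply, smul_eq_mul] at e1 e2 ⊢
      field_simp
      linear_combination (s * a') * e1 + (t * a) * e2 - (x i) * hD'
  refine ⟨F, ⟨⟨fun y hy => hy.1, ?_⟩, hc⟩, ri_of hc hxF ?_⟩
  · rintro u hu v hv z ⟨hz, y', hy', a, b, ha, hb, hab, e⟩ ⟨s, t, hs, ht, hst, e'⟩
    have hN : 0 < a * t + b := by positivity
    refine ⟨hu, (a * t / (a * t + b)) • v + (b / (a * t + b)) • y',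
      hT hv hy' (by positivity) (by positivity) (by field_simp), a * s, a * t + b,
      by positivity, hN, by linear_combination a * hst + hab, ?_⟩
    ext i
    have e1 := congrFun e i
    have e2 := congrFun e' i
    simp only [Pi.add_apply, Pi.smul_apply, smul_eq_mul] at e1 e2 ⊢
    field_simp
    linear_combination e1 + a * e2
  · rintro y ⟨hy, y', hy', h⟩
    exact ⟨y', ⟨hy', y, hy, by rwa [openSegment_symm]⟩, h⟩

theorem ri_seg {F : Set (E d)} (hF : Convex ℝ F) {x w : E d} (hx : x ∈ intrinsicInterior ℝ F)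
    (hw : w ∈ F) {s t : ℝ} (hs : 0 < s) (ht : 0 ≤ t) (hst : s + t = 1) :
    s • x + t • w ∈ intrinsicInterior ℝ F := by
  refine ri_of hF (hF (intrinsicInterior_subset hx) hw hs.le ht hst) fun y hy => ?_
  obtain ⟨y', hy', a, b, ha, hb, hab, e⟩ := ri_ext hx (subset_affineSpan ℝ F hy)
  have hN : 0 < s * b + t := by positivity
  refine ⟨(s * b / (s * b + t)) • y' + (t / (s * b + t)) • w,
    hF hy' hw (by positivity) (by positivity) (by field_simp), s * a, s * b + t,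
    by positivity, hN, by linear_combination s * hab + hst, ?_⟩
  ext i
  have e1 := congrFun e i
  simp only [Pi.add_apply, Pi.smul_apply, smul_eq_mul] at e1 ⊢
  field_simp
  linear_combination s * e1

theorem IsPoly.convex {T : Set (E d)} (h : IsPoly T) : Convex ℝ T := by
  obtain ⟨⟨V, -, rfl⟩, -⟩ := h
  exact convex_convexHull ℝ V

theorem IsPoly.closed {T : Set (E d)} (h : IsPoly T) : IsClosed T := by
  obtain ⟨⟨V, hV, rfl⟩, -⟩ := h
  exact hV.isClosed_convexHull ℝ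

theorem IsPoly.sub_closure {T : Set (E d)} (h : IsPoly T) : T ⊆ closure (interior T) := by
  rw [h.convex.closure_interior_eq_closure_of_nonempty_interior h.2]
  exact subset_closure

section tiling
variable {𝒯 : Set (Set (E d))} (hT : IsTiling 𝒯) (hL : LocFin 𝒯)
include hT

theorem eq_of_int {T T' : Set (E d)} (h : T ∈ 𝒯) (h' : T' ∈ 𝒯) {x : E d} (hx : x ∈ T)
    (hx' : x ∈ interior T') : T = T' := by
  by_contra hne
  have h1 := hT.2.2 T h T' h' hne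
  have h2 := (hT.1 T h).sub_closure hx
  obtain ⟨y, hy1, hy2⟩ := mem_closure_iff.1 h2 _ isOpen_interior hx'
  exact Set.disjoint_left.1 h1 hy2 hy1

theorem sigma_ex {T : Set (E d)} (h : T ∈ 𝒯) {x : E d} (hx : x ∈ T) :
    ∃ F, (T, F) ∈ sigma 𝒯 x := by
  obtain ⟨F, h1, h2⟩ := face_exists (hT.1 T h).convex hx
  exact ⟨F, h, hx, h1, h2⟩

include hL

theorem cover (x : E d) : ∃ ε > 0, ∀ u, dist u x < ε → ∃ T ∈ 𝒯, x ∈ T ∧ u ∈ T := by
  have hfin := (hL (Metric.ball x 1) Metric.isBounded_ball).subset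
    (show {T | T ∈ 𝒯 ∧ (T ∩ Metric.ball x 1).Nonempty ∧ x ∉ T} ⊆ _ from fun T h => ⟨h.1, h.2.1⟩)
  have hcl : IsClosed (⋃ T ∈ {T | T ∈ 𝒯 ∧ (T ∩ Metric.ball x 1).Nonempty ∧ x ∉ T}, T) :=
    hfin.isClosed_biUnion fun T h => (hT.1 T h.1).closed
  have hx : x ∈ (⋃ T ∈ {T | T ∈ 𝒯 ∧ (T ∩ Metric.ball x 1).Nonempty ∧ x ∉ T}, T)ᶜ := by
    simp only [mem_compl_iff, mem_iUnion, not_exists]
    exact fun T h hx => h.2.2 hx
  obtain ⟨ε, hε, h⟩ := Metric.isOpen_iff.1 hcl.isOpen_compl x hx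
  refine ⟨min ε 1, by positivity, fun u hu => ?_⟩
  have hu' : u ∈ ⋃₀ 𝒯 := by rw [hT.2.1]; trivial
  obtain ⟨T, h1, h2⟩ := hu'
  refine ⟨T, h1, ?_, h2⟩
  by_contra hxT
  have := h (show u ∈ Metric.ball x ε from lt_of_lt_of_le hu (min_le_left _ _))
  simp only [mem_compl_iff, mem_iUnion, not_exists] at this
  exact this T ⟨h1, ⟨u, h2, lt_of_lt_of_le hu (min_le_right _ _)⟩, hxT⟩ h2

theorem sigma_seg {x w : E d} (hw : ∀ p ∈ sigma 𝒯 x, w ∈ p.2) {s t : ℝ} (hs : 0 < s) (ht : 0 ≤ t)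
    (hst : s + t = 1) : sigma 𝒯 (s • x + t • w) = sigma 𝒯 x := by
  have h1 : sigma 𝒯 x ⊆ sigma 𝒯 (s • x + t • w) := by
    rintro ⟨T, F⟩ hp
    have := ri_seg hp.2.2.1.2 hp.2.2.2 (hw _ hp) hs ht hst
    exact ⟨hp.1, hp.2.2.1.1.subset (intrinsicInterior_subset this), hp.2.2.1, this⟩
  refine Subset.antisymm ?_ h1
  rintro ⟨T', F'⟩ hp
  have hx : x ∈ T' := by
    obtain ⟨ε, hε, hc⟩ := cover hT hL x
    obtain ⟨o, ho1, ho2⟩ := Metric.mem_closure_iff.1 ((hT.1 T' hp.1).sub_closure hp.2.1) (s * ε)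
      (by positivity)
    obtain ⟨T, hT1, hT2, hT3⟩ := hc (s⁻¹ • (o - (s • x + t • w)) + x) (by
      rw [dist_comm, dist_eq_norm] at ho2
      rw [dist_eq_norm, add_sub_cancel_right, norm_smul, Real.norm_eq_abs,
        abs_of_pos (inv_pos.2 hs), inv_mul_lt_iff₀ hs]
      exact ho2)
    obtain ⟨F, hF⟩ := sigma_ex hT hT1 hT2
    have hwT : w ∈ T := hF.2.2.1.1.subset (hw _ hF)
    have ho := (hT.1 T hT1).convex hT3 hwT hs.le ht hst
    have e : s • (s⁻¹ • (o - (s • x + t • w)) + x) + t • w = o := by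
      rw [smul_add, smul_smul, mul_inv_cancel₀ hs.ne', one_smul]; abel
    rw [e] at ho
    have : T = T' := eq_of_int hT hT1 hp.1 ho ho1
    exact this ▸ hT2
  obtain ⟨F, hF⟩ := sigma_ex hT hp.1 hx
  have hF' := h1 hF
  have e : F' = F := Subset.antisymm
    (face_sub hF.2.2.1 hp.2.2.1.1.subset (intrinsicInterior_subset hF'.2.2.2) hp.2.2.2)
    (face_sub hp.2.2.1 hF.2.2.1.1.subset (intrinsicInterior_subset hp.2.2.2) hF'.2.2.2)
  rw [e]; exact hF

theorem mem_cell {x w : E d} : w ∈ cell 𝒯 x ↔ ∀ p ∈ sigma 𝒯 x, w ∈ p.2 := by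
  constructor
  · intro hw p hp
    refine (face_closed (hT.1 _ hp.1).closed hp.2.2.1 hp.2.2.2).closure_subset_iff.2 ?_ hw
    intro y hy
    have : p ∈ sigma 𝒯 y := by rw [show sigma 𝒯 y = sigma 𝒯 x from hy]; exact hp
    exact intrinsicInterior_subset this.2.2.2
  · intro hw
    refine Metric.mem_closure_iff.2 fun ε hε => ?_
    set s : ℝ := min 1 (ε / (‖w - x‖ + 1)) with hs
    have hn : 0 < ‖w - x‖ + 1 := by positivity
    have s0 : 0 < s := by positivity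
    have s1 : s ≤ 1 := min_le_left _ _
    have s2 : s * (‖w - x‖ + 1) ≤ ε := (le_div_iff₀ hn).1 (min_le_right _ _)
    refine ⟨s • x + (1 - s) • w, sigma_seg hT hL hw s0 (by linarith) (by ring), ?_⟩
    have e : w - (s • x + (1 - s) • w) = s • (w - x) := by
      rw [sub_smul, one_smul, smul_sub]; abel
    rw [dist_eq_norm, e, norm_smul, Real.norm_eq_abs, abs_of_pos s0]
    linarith

theorem cell_sub {x z : E d} (hz : z ∈ cell 𝒯 x) : cell 𝒯 z ⊆ cell 𝒯 x := by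
  intro w hw
  rw [mem_cell hT hL] at hz hw ⊢
  rintro ⟨T, F⟩ hp
  obtain ⟨F', hF'⟩ := sigma_ex hT hp.1 (hp.2.2.1.1.subset (hz _ hp))
  exact face_sub hp.2.2.1 hF'.2.2.1.1.subset (hz _ hp) hF'.2.2.2 (hw _ hF')

theorem cell_convex (x : E d) : Convex ℝ (cell 𝒯 x) := by
  intro u hu v hv a b ha hb hab
  rw [mem_cell hT hL] at hu hv ⊢
  exact fun p hp => hp.2.2.1.2 (hu p hp) (hv p hp) ha hb hab

theorem cell_sub_tile {x : E d} {T : Set (E d)} (h : T ∈ 𝒯) (hx : x ∈ T) : cell 𝒯 x ⊆ T := by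
  obtain ⟨F, hF⟩ := sigma_ex hT h hx
  exact fun w hw => hF.2.2.1.1.subset ((mem_cell hT hL).1 hw _ hF)

theorem cell_eq_tile {x : E d} {T : Set (E d)} (h : T ∈ 𝒯) (hx : x ∈ T)
    (hu : ∀ T' ∈ 𝒯, x ∈ T' → T' = T) : cell 𝒯 x = T := by
  refine Subset.antisymm (cell_sub_tile hT hL h hx) fun w hw => (mem_cell hT hL).2 ?_
  rintro ⟨T', F⟩ hp
  have e : T' = T := hu T' hp.1 hp.2.1
  subst e
  have hi : x ∈ interior T' := by
    obtain ⟨ε, hε, hc⟩ := cover hT hL x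
    rw [mem_interior_iff_mem_nhds, Metric.mem_nhds_iff]
    refine ⟨ε, hε, fun u hu' => ?_⟩
    obtain ⟨T, h1, h2, h3⟩ := hc u hu'
    exact hu T h1 h2 ▸ h3
  exact face_sub hp.2.2.1 Subset.rfl (intrinsicInterior_subset hp.2.2.2)
    (interior_subset_intrinsicInterior hi) hw

theorem poset_facts {A : Set (E d)} (hA : A ∈ poset 𝒯) :
    IsClosed A ∧ Convex ℝ A ∧ ∀ z ∈ A, cell 𝒯 z ⊆ A := by
  rcases hA with ⟨x, rfl⟩ | rfl | rfl
  · exact ⟨isClosed_closure, cell_convex hT hL x, fun z hz => cell_sub hT hL hz⟩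
  · exact ⟨isClosed_empty, convex_empty, fun z hz => absurd hz (notMem_empty z)⟩
  · exact ⟨isClosed_univ, convex_univ, fun z _ => subset_univ _⟩

end tiling

theorem self_mem_cell (𝒯 : Set (Set (E d))) (x : E d) : x ∈ cell 𝒯 x := subset_closure rfl

theorem no_dual {𝒯 𝒮 : Set (Set (E d))} (hS : IsTiling 𝒮) (hL : LocFin 𝒮) (N S A B : poset 𝒯)
    (h1 : N.1 ⊆ A.1) (h2 : S.1 ⊆ A.1) (h3 : N.1 ⊆ B.1) (h4 : S.1 ⊆ B.1) (hAB : ¬ A.1 ⊆ B.1)
    (hBA : ¬ B.1 ⊆ A.1)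
    (hU : ∀ X : poset 𝒯, N.1 ⊆ X.1 → S.1 ⊆ X.1 → X = A ∨ X = B ∨ X.1 = univ) : ¬ Dual 𝒯 𝒮 := by
  rintro ⟨φ, hφ, hle⟩
  have key : ∀ z, z ∈ (φ N).1 → z ∈ (φ S).1 → cell 𝒮 z = (φ A).1 ∨ cell 𝒮 z = (φ B).1 := by
    intro z hN hS'
    obtain ⟨X, hX⟩ := hφ.2 ⟨cell 𝒮 z, Or.inl ⟨z, rfl⟩⟩
    have e : (φ X).1 = cell 𝒮 z := congrArg Subtype.val hX
    rcases hU X ((hle _ _).2 (e ▸ (poset_facts hS hL (φ N).2).2.2 z hN))
      ((hle _ _).2 (e ▸ (poset_facts hS hL (φ S).2).2.2 z hS')) with h | h | h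
    · left; rw [← e, h]
    · right; rw [← e, h]
    · obtain ⟨Y, hY⟩ := hφ.2 ⟨∅, Or.inr (Or.inl rfl)⟩
      have : (φ X).1 ⊆ (φ Y).1 := (hle _ _).1 (h ▸ subset_univ _)
      rw [hY, e] at this
      exact absurd (this (self_mem_cell 𝒮 z)) (notMem_empty z)
  have hA : (φ A).1 ⊆ (φ N).1 ∩ (φ S).1 := subset_inter ((hle _ _).1 h1) ((hle _ _).1 h2)
  have hB : (φ B).1 ⊆ (φ N).1 ∩ (φ S).1 := subset_inter ((hle _ _).1 h3) ((hle _ _).1 h4)
  have hc : IsPreconnected ((φ N).1 ∩ (φ S).1) :=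
    ((poset_facts hS hL (φ N).2).2.1.inter (poset_facts hS hL (φ S).2).2.1).isPreconnected
  have hA0 : (φ A).1.Nonempty := by
    rw [nonempty_iff_ne_empty]
    intro h
    exact hBA ((hle _ _).2 (h ▸ empty_subset _))
  have hB0 : (φ B).1.Nonempty := by
    rw [nonempty_iff_ne_empty]
    intro h
    exact hAB ((hle _ _).2 (h ▸ empty_subset _))
  obtain ⟨z, hz, hzA, hzB⟩ := isPreconnected_closed_iff.1 hc _ _ (poset_facts hS hL (φ A).2).1
    (poset_facts hS hL (φ B).2).1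
    (fun z hz => by
      rcases key z hz.1 hz.2 with h | h
      · left; exact h ▸ self_mem_cell 𝒮 z
      · right; exact h ▸ self_mem_cell 𝒮 z)
    (hA0.mono (subset_inter hA Subset.rfl)) (hB0.mono (subset_inter hB Subset.rfl))
  rcases key z hz.1 hz.2 with h | h
  · exact hBA ((hle _ _).2 (h ▸ (poset_facts hS hL (φ B).2).2.2 z hzB))
  · exact hAB ((hle _ _).2 (h ▸ (poset_facts hS hL (φ A).2).2.2 z hzA))

end Pool.Agent.H.MP_d6d24d_co
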