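import Mathlib
import Pool.Agent.H.MP_d6d24d_co.A

set_option autoImplicit false

namespace Pool.Agent.H.MP_d6d24d_co

open Set

noncomputable def sh (i j : ℤ) : ℝ := if i = j then 1 / 2 else 0

noncomputable def lo (v : ℤ × ℤ × ℤ) : E 3 := ![v.1, v.2.1, v.2.2 + sh v.1 v.2.1]

def box (v : ℤ × ℤ × ℤ) : Set (E 3) := univ.pi fun r => Icc (lo v r) (lo v r + 1)

theorem sh_bd (i j : ℤ) : 0 ≤ sh i j ∧ sh i j ≤ 1 / 2 := by
  unfold sh; split_ifs <;> norm_num

theorem mem_box {i j k : ℤ} {x : E 3} : x ∈ box (i, j, k) ↔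
    ((i : ℝ) ≤ x 0 ∧ x 0 ≤ i + 1) ∧ ((j : ℝ) ≤ x 1 ∧ x 1 ≤ j + 1) ∧
      ((k : ℝ) + sh i j ≤ x 2 ∧ x 2 ≤ k + sh i j + 1) := by
  unfold box
  rw [Set.mem_univ_pi, Fin.forall_fin_succ, Fin.forall_fin_succ, Fin.forall_fin_succ]
  simp [lo]

theorem mem_int {i j k : ℤ} {x : E 3} : x ∈ interior (box (i, j, k)) ↔
    ((i : ℝ) < x 0 ∧ x 0 < i + 1) ∧ ((j : ℝ) < x 1 ∧ x 1 < j + 1) ∧
      ((k : ℝ) + sh i j < x 2 ∧ x 2 < k + sh i j + 1) := by
  unfold box
  rw [interior_pi_set finite_univ]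
  simp [lo, Fin.forall_fin_succ, -mem_Ioo, Set.mem_pi]
  simp

theorem int_eq {i i' : ℤ} {t : ℝ} (h1 : (i : ℝ) < t) (h2 : t < i + 1) (h3 : (i' : ℝ) ≤ t)
    (h4 : t ≤ i' + 1) : i = i' := by
  have a : (i : ℝ) < i' + 1 := by linarith
  have b : (i' : ℝ) < i + 1 := by linarith
  have a' : i < i' + 1 := by exact_mod_cast a
  have b' : i' < i + 1 := by exact_mod_cast b
  omega

theorem tiling : IsTiling (range box) := by
  refine ⟨?_, ?_, ?_⟩
  · rintro _ ⟨⟨i, j, k⟩, rfl⟩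
    refine ⟨⟨univ.pi fun r => {lo (i, j, k) r, lo (i, j, k) r + 1},
      Finite.pi fun r => toFinite _, ?_⟩, ⟨![i + 1 / 2, j + 1 / 2, k + sh i j + 1 / 2], ?_⟩⟩
    · rw [convexHull_pi]
      unfold box
      congr 1
      ext1 r
      rw [convexHull_pair, segment_eq_Icc (by linarith)]
    · rw [mem_int]
      simp
      norm_num
  · rw [eq_univ_iff_forall]
    intro x
    refine ⟨_, ⟨(⌊x 0⌋, ⌊x 1⌋, ⌊x 2 - sh ⌊x 0⌋ ⌊x 1⌋⌋), rfl⟩, mem_box.2 ?_⟩
    have a := Int.floor_le (x 2 - sh ⌊x 0⌋ ⌊x 1⌋)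
    have b := Int.lt_floor_add_one (x 2 - sh ⌊x 0⌋ ⌊x 1⌋)
    exact ⟨⟨Int.floor_le _, (Int.lt_floor_add_one _).le⟩,
      ⟨Int.floor_le _, (Int.lt_floor_add_one _).le⟩, by linarith, by linarith⟩
  · rintro _ ⟨⟨i, j, k⟩, rfl⟩ _ ⟨⟨i', j', k'⟩, rfl⟩ hne
    rw [Set.disjoint_left]
    intro x h1 h2
    rw [mem_int] at h1 h2
    have e1 := int_eq h1.1.1 h1.1.2 h2.1.1.le h2.1.2.le
    have e2 := int_eq h1.2.1.1 h1.2.1.2 h2.2.1.1.le h2.2.1.2.le
    subst e1 e2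
    have e3 : k = k' := int_eq (t := x 2 - sh i j) (by linarith [h1.2.2.1]) (by linarith [h1.2.2.2])
      (by linarith [h2.2.2.1]) (by linarith [h2.2.2.2])
    subst e3
    exact hne rfl

theorem locfin : LocFin (range box) := by
  intro B hB
  obtain ⟨R, hR⟩ := hB.exists_norm_le
  obtain ⟨n, hn⟩ := exists_nat_ge R
  refine ((toFinite (Icc (-(n : ℤ) - 2) (n : ℤ) ×ˢ Icc (-(n : ℤ) - 2) (n : ℤ) ×ˢ
    Icc (-(n : ℤ) - 2) (n : ℤ))).image box).subset ?_
  rintro _ ⟨⟨⟨i, j, k⟩, rfl⟩, x, hx, hxB⟩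
  refine ⟨(i, j, k), ?_, rfl⟩
  rw [mem_box] at hx
  have h : ∀ r, |x r| ≤ n := fun r => ((norm_le_pi_norm x r).trans (hR x hxB)).trans hn
  have h0 := abs_le.1 (h 0)
  have h1 := abs_le.1 (h 1)
  have h2 := abs_le.1 (h 2)
  have hs := sh_bd i j
  have key : ∀ m : ℤ, -(n : ℝ) - 2 ≤ m → (m : ℝ) ≤ n → m ∈ Icc (-(n : ℤ) - 2) (n : ℤ) := by
    intro m a b
    constructor
    · exact_mod_cast a
    · exact_mod_cast b
  exact ⟨key i (by linarith [hx.1.2]) (by linarith [hx.1.1]),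
    key j (by linarith [hx.2.1.2]) (by linarith [hx.2.1.1]),
    key k (by linarith [hx.2.2.2]) (by linarith [hx.2.2.1])⟩

noncomputable def pN : E 3 := ![0, 0, 1 / 4]
noncomputable def pS : E 3 := ![0, 0, -1 / 4]
noncomputable def pA : E 3 := ![1 / 2, 1 / 2, 0]
noncomputable def pB : E 3 := ![-1 / 2, -1 / 2, 0]

theorem both {v : ℤ × ℤ × ℤ} (h1 : pN ∈ box v) (h2 : pS ∈ box v) :
    v = (0, 0, -1) ∨ v = (-1, -1, -1) := by
  obtain ⟨i, j, k⟩ := v
  rw [mem_box] at h1 h2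
  simp only [pN, pS, Matrix.cons_val_zero, Matrix.cons_val_one, Matrix.cons_val] at h1 h2
  have i1 : i ≤ 0 := by exact_mod_cast h1.1.1
  have i2 : 0 ≤ i + 1 := by exact_mod_cast h1.1.2
  have j1 : j ≤ 0 := by exact_mod_cast h1.2.1.1
  have j2 : 0 ≤ j + 1 := by exact_mod_cast h1.2.1.2
  have hs := sh_bd i j
  have e : (-1 : ℤ) = k ∨ (-1 : ℤ) ≠ k := em _
  have k1 : (k : ℝ) < 0 := by linarith [h2.2.2.1]
  have k2 : (-2 : ℝ) < k := by linarith [h1.2.2.2]
  have k1' : k < 0 := by exact_mod_cast k1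
  have k2' : -2 < k := by exact_mod_cast k2
  have k3 : k = -1 := by omega
  subst k3
  have hij : i = j := by
    by_contra hne
    have : sh i j = 0 := by simp [sh, hne]
    have h := h1.2.2.2
    rw [this] at h
    norm_num at h
  subst hij
  have : i = 0 ∨ i = -1 := by omega
  rcases this with rfl | rfl <;> simp

theorem cellA : cell (range box) pA = box (0, 0, -1) := by
  have h : pA ∈ interior (box (0, 0, -1)) := by
    rw [mem_int]; simp [pA, sh]; norm_num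
  exact cell_eq_tile tiling locfin ⟨_, rfl⟩ (interior_subset h)
    fun T' hT' hx => eq_of_int tiling hT' ⟨_, rfl⟩ hx h

theorem cellB : cell (range box) pB = box (-1, -1, -1) := by
  have h : pB ∈ interior (box (-1, -1, -1)) := by
    rw [mem_int]; simp [pB, sh]; norm_num
  exact cell_eq_tile tiling locfin ⟨_, rfl⟩ (interior_subset h)
    fun T' hT' hx => eq_of_int tiling hT' ⟨_, rfl⟩ hx h

theorem main (𝒮 : Set (Set (E 3))) (hS : IsTiling 𝒮) (hL : LocFin 𝒮) : ¬ Dual (range box) 𝒮 := by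
  have nA : pN ∈ box (0, 0, -1) := by rw [mem_box]; simp [pN, sh]; norm_num
  have sA : pS ∈ box (0, 0, -1) := by rw [mem_box]; simp [pS, sh]; norm_num
  have nB : pN ∈ box (-1, -1, -1) := by rw [mem_box]; simp [pN, sh]; norm_num
  have sB : pS ∈ box (-1, -1, -1) := by rw [mem_box]; simp [pS, sh]; norm_num
  refine no_dual hS hL ⟨cell _ pN, Or.inl ⟨_, rfl⟩⟩ ⟨cell _ pS, Or.inl ⟨_, rfl⟩⟩
    ⟨cell _ pA, Or.inl ⟨_, rfl⟩⟩ ⟨cell _ pB, Or.inl ⟨_, rfl⟩⟩
    (cell_sub tiling locfin (cellA ▸ nA)) (cell_sub tiling locfin (cellA ▸ sA))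
    (cell_sub tiling locfin (cellB ▸ nB)) (cell_sub tiling locfin (cellB ▸ sB)) ?_ ?_ ?_
  · intro h
    have := h (self_mem_cell _ pA)
    simp only [cellB, mem_box] at this
    simp [pA] at this
    norm_num at this
  · intro h
    have := h (self_mem_cell _ pB)
    simp only [cellA, mem_box] at this
    simp [pB] at this
    norm_num at this
  · rintro ⟨X, hX⟩ h1 h2
    have hn : pN ∈ X := h1 (self_mem_cell _ _)
    have hs : pS ∈ X := h2 (self_mem_cell _ _)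
    rcases hX with ⟨x, rfl⟩ | rfl | rfl
    · have hv : ∀ v, x ∈ box v → v = (0, 0, -1) ∨ v = (-1, -1, -1) := fun v hv =>
        both (cell_sub_tile tiling locfin ⟨v, rfl⟩ hv hn) (cell_sub_tile tiling locfin ⟨v, rfl⟩ hv hs)
      have hno : ¬ (x ∈ box (0, 0, -1) ∧ x ∈ box (-1, -1, -1)) := by
        rintro ⟨a, b⟩
        rw [mem_box] at a b
        have := hv (0, -1, ⌊x 2⌋) (mem_box.2 ⟨a.1, b.2.1, by
          have e : sh 0 (-1) = 0 := by simp [sh]
          rw [e]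
          exact ⟨by linarith [Int.floor_le (x 2)], by linarith [Int.lt_floor_add_one (x 2)]⟩⟩)
        simp at this
      have hx : x ∈ ⋃₀ range box := by rw [tiling.2.1]; trivial
      obtain ⟨_, ⟨v, rfl⟩, hxv⟩ := hx
      rcases hv v hxv with rfl | rfl
      · left
        refine Subtype.ext ?_
        simp only [cellA]
        refine cell_eq_tile tiling locfin ⟨_, rfl⟩ hxv ?_
        rintro _ ⟨w, rfl⟩ hw
        rcases hv w hw with rfl | rfl
        · rfl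
        · exact absurd ⟨hxv, hw⟩ hno
      · right; left
        refine Subtype.ext ?_
        simp only [cellB]
        refine cell_eq_tile tiling locfin ⟨_, rfl⟩ hxv ?_
        rintro _ ⟨w, rfl⟩ hw
        rcases hv w hw with rfl | rfl
        · exact absurd ⟨hw, hxv⟩ hno
        · rfl
    · exact absurd hn (notMem_empty _)
    · exact Or.inr (Or.inr rfl)

end Pool.Agent.H.MP_d6d24d_co
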